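import Pool.Agent.P8H14.CF.Defs

set_option autoImplicit false

/-!
# Project EX: quadratic polynomials `x ^ 2 + x + A` with extremely many and extremely few prime values
(statements of the packages)

Goal (uses the finished project CF, `Pool.Agent.P8H14.CF`): at most scales `N` there are at least `N ^ (1 - ε)` odd
`A ≤ N` with `P_A(n) ≥ (e ^ γ / 2 - ε) log log N · L_A(n)` for all `√N / log ^ B N ≤ n ≤ √N`, and at least
`N ^ (1 - ε)` with `P_A(n) ≤ (2 C₂ e ^ (-γ) + ε) / log log N · L_A(n)`. The exceptional set of Conjecture F has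
`N ^ (1 - c / log log N)` elements, and there are more `A` for which `χ_A(p) = σ` for all the odd primes
`p ≤ z = c' log N`. For most of these `A` the constant is the product over the `p ≤ z`.

Useful facts for odd `A ≥ 1` (`D = 4 A - 1 ≡ 3 mod 8`), proved by helper96 in `Pool.Agent.P8H96.CF.Eul` and by
helper67 in `Pool.Agent.P8H67.CF.SM`: `chi A p = ((1 - 4 A) / p)` for odd `p` (reciprocity), `chi A 2 = -1`,
`rho A p - 1 = chi A p` (for `A ≥ 3`), sums over complete periods.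
The packages may assume each other: prove e.g. `theorem var : S_ORT → S_VAR`.
-/

namespace Pool.Agent.P8H14.EX

open Finset Filter Topology
open Pool.Agent.P8H14.CF

/-- the odd primes up to `z` -/
def op (z : ℕ) : Finset ℕ := (Icc 3 z).filter Nat.Prime

/-- their product -/
def PZ (z : ℕ) : ℕ := ∏ p ∈ op z, p

/-- the number of the classes modulo `PZ z` -/
def KZ (z : ℕ) : ℕ := ∏ p ∈ op z, (p - 1) / 2

/-- the odd `A` with `u < A ≤ N` and `χ_A(p) = σ` for all the odd primes `p ≤ z` -/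
def AS (σ : ℤ) (z u N : ℕ) : Finset ℕ := (Ioc u N).filter (fun A => Odd A ∧ ∀ p ∈ op z, chi A p = σ)

/-- the product up to `z`, with the factor `2` of the prime `2` -/
noncomputable def VS (σ : ℤ) (z : ℕ) : ℝ := 2 * ∏ p ∈ op z, (1 - (σ : ℝ) / ((p : ℝ) - 1))

/-- the twin prime constant `C₂ = ∏_{p ≥ 3} (1 - 1 / (p - 1) ^ 2)` -/
noncomputable def C2 : ℝ := ∏' p : Nat.Primes, (if (p : ℕ) = 2 then (1 : ℝ) else 1 - 1 / (((p : ℕ) : ℝ) - 1) ^ 2)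

/-- (CNT, 150 lines) Counting. For each odd `p` there are exactly `(p - 1) / 2` classes of `A` modulo `p` with
`((1 - 4 A) / p) = σ`; by the Chinese remainder theorem `KZ z` classes modulo `PZ z`, and as many classes of odd `A`
modulo `2 PZ z`; each class has `(N - u) / (2 PZ z) + θ`, `|θ| ≤ 1`, members in `(u, N]`. (Suggestion: count on
`range (2 PZ z)` the set `Odd A ∧ ∀ p ∈ op z, J(1 - 4 A | p) = σ` by induction on the set of the primes, or with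
`ZMod.prodEquivPi` / `Nat.chineseRemainder`.) -/
def S_CNT : Prop := ∀ (σ : ℤ) (z u N : ℕ), σ = 1 ∨ σ = -1 → u ≤ N →
  |((AS σ z u N).card : ℝ) - KZ z * ((N : ℝ) - u) / (2 * PZ z)| ≤ KZ z

/-- (ORT, 150 lines) Orthogonality. In each of the `KZ z` classes modulo `2 PZ z`, `A = r + 2 PZ z t` with `t` in an
interval; `χ_A(k) = J(1 - 4 A | k)` for odd `k`, periodic in `t` with the period `k` (as `k` is coprime to `2 PZ z`),
with the sum `0` over a period, if `k` is not a square; so the sum over each class is at most `k`. -/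
def S_ORT : Prop := ∀ (σ : ℤ) (z u N k : ℕ), σ = 1 ∨ σ = -1 → u ≤ N → Odd k → k.Coprime (PZ z) → ¬ IsSquare k →
  |∑ A ∈ AS σ z u N, (chi A k : ℝ)| ≤ KZ z * k

/-- (VAR, 80 lines) Square out: `χ_A(k₁) χ_A(k₂) = χ_A(k₁ k₂)`, and `k₁ k₂` is not a square for different squarefree
`k₁`, `k₂`. -/
def S_VAR : Prop := ∀ (σ : ℤ) (z u N : ℕ), σ = 1 ∨ σ = -1 → u ≤ N → ∀ (S : Finset ℕ) (b : ℕ → ℝ),
  (∀ k ∈ S, Odd k ∧ Squarefree k ∧ k.Coprime (PZ z)) →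
    ∑ A ∈ AS σ z u N, (∑ k ∈ S, b k * chi A k) ^ 2 ≤
      (AS σ z u N).card * ∑ k ∈ S, b k ^ 2 + KZ z * (∑ k ∈ S, |b k| * k) ^ 2

/-- (ALG, 300 lines; from `S_CNT`, `S_VAR`, `S_MER`) The truncated singular series is the product up to `z`, in mean
square over `AS`. Proof. For odd `A ≥ 3`: `sing Q A = ∑_{k ≤ Q} μ(k) χ_A(k) / φ(k)`. Write the squarefree `k` as `d m`,
`d ∣ 2 PZ z`, `m` coprime to `2 PZ z`. For `A ∈ AS` the full sum over `d` is `∏_{p ≤ z} (1 - χ_A(p) / (p - 1)) = VS σ z`.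
So `sing Q A - VS σ z = - ∑_{d ∣ 2 PZ z, d > Q} μχ/φ(d) + ∑_{d ∣ 2 PZ z, d ≤ Q} μχ/φ(d) S_d(A)` with
`S_d(A) = ∑_{1 < m ≤ Q / d, (m, 2 PZ z) = 1} μ(m) χ_A(m) / φ(m)`, whose `m` are `> z`.
(1) `∑_{d > Q} 1/φ(d) ≤ Q^(-1/2) ∏_{p ≤ z} (1 + √p / (p - 1)) ≤ Q^(-1/2) exp(C' √z)`.
(2) `∑_{d ∣ 2 PZ z} 1/φ(d) = ∏_{p ≤ z} p / (p - 1) = VS (-1) z ≤ C'' (1 + log z)` (`S_MER`), and by Cauchy's inequality
`(∑_d |S_d|/φ(d))² ≤ (∑_d 1/φ(d)) ∑_d |S_d|²/φ(d)`; by `S_VAR` `∑_A S_d(A)² ≤ |AS| ∑_{m > z} 1/φ(m)² + KZ z Q⁴`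
(`m/φ(m) ≤ m`), `∑_{m > z} 1/φ(m)² ≤ C z^(-3/4)` (`m / φ(m) ≤ d(m) ≤ C m^(1/8)`, or any other simple bound), and
`KZ z Q⁴ ≤ |AS| / z` by `S_CNT` and the hypothesis. -/
def S_ALG : Prop := ∃ C : ℝ, 0 < C ∧ ∀ (σ : ℤ) (z u N Q : ℕ), σ = 1 ∨ σ = -1 → 3 ≤ z → 3 ≤ u → u ≤ N → 1 ≤ Q →
  C * √(z : ℝ) ≤ Real.log Q → 8 * PZ z * Q ^ 4 * z ≤ N - u →
    ∑ A ∈ AS σ z u N, (sing Q A - VS σ z) ^ 2 ≤ C * (AS σ z u N).card / √(z : ℝ)

/-- (MER, 200 lines) Mertens' theorem: `∏_{p ≤ z} p / (p - 1) ∼ e ^ γ log z` (search the library for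
`eulerMascheroniConstant`), and `(1 - 1/(p-1)) = (1 - 1/(p-1)²) (1 - 1/p)` for `p ≥ 3`. -/
def S_MER : Prop :=
  Tendsto (fun z : ℕ => VS (-1) z / Real.log z) atTop (𝓝 (Real.exp Real.eulerMascheroniConstant)) ∧
  Tendsto (fun z : ℕ => VS 1 z * Real.log z) atTop (𝓝 (4 * C2 * Real.exp (-Real.eulerMascheroniConstant)))

/-- (LOW, 60 lines) `p ≤ 3 ((p - 1) / 2)` for `p ≥ 3`, and `π(z) ≤ C z / log z` (Chebyshev). -/
def S_LOW : Prop := ∃ C : ℝ, 0 < C ∧ ∀ z : ℕ, 3 ≤ z → (PZ z : ℝ) ≤ KZ z * Real.exp (C * z / Real.log z)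

end Pool.Agent.P8H14.EX
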