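import Pool.Agent.P8H14.CF.F3
import Pool.Agent.P8H14.EX.Stm

set_option autoImplicit false

/-!
# Project EX: Conjecture F at most scales, with the truncated singular series in the conclusion
-/

open Finset Filter Topology

namespace Pool.Agent.P8H14.EX

open Pool.Agent.P8H14.CF
open Pool.Agent.P8H14.PL (LS most_LS)
open Pool.Agent.P8H14.QP (sav)
open Pool.Agent.TH823.PS (Most most_mono)

/-- the statement at one scale -/
def GoodX (B : ℕ) (c : ℝ) (N : ℕ) : Prop := ∃ (Q : ℕ) (E : Finset ℕ), 1 ≤ Q ∧ Q ^ 1000 ≤ N ∧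
  c * Real.log N / Real.log (Real.log N) ≤ Real.log Q ∧ (E.card : ℝ) ≤ N / sav c N ∧
  ∀ A ∈ Icc 3 N, Odd A → A ∉ E → ∃ C : ℝ, 0 < C ∧ IsC A C ∧ |sing Q A - 2 * C| ≤ 1 / Real.log N ∧
    ∀ n : ℕ, n ^ 2 ≤ N → (N : ℝ) ≤ n ^ 2 * Real.log N ^ (2 * B) →
      |(PA A n : ℝ) - C * LA A n| ≤ C * LA A n / Real.log N ^ B

/-- **most scales** -/
theorem mainX (hDU : S_DU) (hAB : S_AB) (hTT : S_TT) (hCS : S_CS) (hEUL : S_EUL) (hSS : S_SS) (hPL : S_PL) (B : ℕ)
    {ε : ℝ} (hε : 0 < ε) : ∃ c : ℝ, 0 < c ∧ Most ε (GoodX B c) := by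
  classical
  obtain ⟨κ, CT, hκ, hCT, hTT⟩ := hTT
  obtain ⟨C1, hC1, K1, hCS⟩ := hCS
  obtain ⟨G, hG, hGs⟩ := sing_bd hEUL
  set b : ℕ := 2 * B + 8 with hb
  obtain ⟨K2, N2, hSS⟩ := hSS b
  obtain ⟨c, C, hc, hc8, hC, hmost⟩ := most_LS
  set A1 : ℕ := 2 * b + K1 + 2 with hA1
  obtain ⟨c1, hc1, hc11, L0, hL1⟩ := L1 hc hc8 hC A1
  obtain ⟨c', hc', hmost⟩ := hmost c1 hc1 hc11 (ε / 2) (by positivity)
  set κ3 : ℝ := min (1 / 80) (κ / 20) with hκ3
  have hκ30 : 0 < κ3 := lt_min (by norm_num) (by positivity)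
  -- conditions on `X`
  have x1 := pnt_th A1
  have x2 : ∀ᶠ X : ℝ in atTop, 1 * X ^ (b + 2) ≤ Real.exp (1 / 4 * X) := ev_pow_exp (b + 2) (1 / 4) 1 (by norm_num) (by norm_num)
  have x3 : ∀ᶠ X : ℝ in atTop, 1 * X ^ A1 ≤ Real.exp (1 / 2 * X) := ev_pow_exp A1 (1 / 2) 1 (by norm_num) (by norm_num)
  obtain ⟨X0, hX0⟩ := eventually_atTop.1 ((x1.and (x2.and x3)).and
    ((eventually_ge_atTop (Real.log (N2 + 1))).and ((eventually_ge_atTop (2 * C1 + G + G)).and
      (Real.tendsto_log_atTop.eventually_ge_atTop (500 : ℝ)))))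
  -- conditions on `l`
  have l1 : ∀ᶠ l : ℝ in atTop, 4 * 18 ^ K2 * l ^ (2 * K2) ≤ Real.exp (1 / 80 * l) :=
    ev_pow_exp (2 * K2) (1 / 80) _ (by norm_num) (by positivity)
  have l2 : ∀ᶠ l : ℝ in atTop, 24 * CT ^ 2 * 18 ^ (5 * b + 2) * l ^ (2 * (5 * b + 2)) ≤ Real.exp (κ / 20 * l) :=
    ev_pow_exp _ _ _ (by positivity) (by positivity)
  have l3 : ∀ᶠ l : ℝ in atTop, 18 ^ K2 * l ^ (2 * K2) ≤ Real.exp (1 / 20 * l) :=
    ev_pow_exp (2 * K2) (1 / 20) _ (by norm_num) (by positivity)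
  obtain ⟨L2, hL2⟩ := eventually_atTop.1 (l1.and (l2.and l3))
  refine ⟨κ3 * c', by positivity, ?_⟩
  refine most_mono (N₁ := 1) hε (hmost (max (max L0 X0) (max L2 30))) fun N _ hG' => ?_
  obtain ⟨l, hl, hReg, hlX, hX18, hlog, hlc'⟩ := hG'
  have hlL0 : L0 ≤ l := (le_max_left _ _).trans ((le_max_left _ _).trans hl)
  have hlX0 : X0 ≤ l := (le_max_right _ _).trans ((le_max_left _ _).trans hl)
  have hlL2 : L2 ≤ l := (le_max_left _ _).trans ((le_max_right _ _).trans hl)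
  have hl30 : 30 ≤ l := (le_max_right _ _).trans ((le_max_right _ _).trans hl)
  set X : ℝ := Real.log N with hX
  obtain ⟨⟨a1, a2, a3⟩, a4, a5, a6⟩ := hX0 X (hlX0.trans hlX)
  obtain ⟨b1, b2, b3⟩ := hL2 l hlL2
  rw [one_mul] at a2 a3
  have hXp : 0 < X := by linarith
  have hN : 1 ≤ N := by
    by_contra hcon
    have : N = 0 := by omega
    rw [hX, this] at hXp
    simp at hXp
  have hN0 : (0 : ℝ) < N := by exact_mod_cast hN
  have hNX : (N : ℝ) = Real.exp X := by rw [hX, Real.exp_log hN0]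
  set lX : ℝ := Real.log X with hlXd
  have h1000 : 1000 * l ≤ X := by
    calc 1000 * l = 2 * (l * 500) := by ring
      _ ≤ 2 * (l * lX) := by gcongr
      _ ≤ c1 * X := hlog
      _ ≤ 1 * X := by gcongr
      _ = X := one_mul _
  have hX3 : 30000 ≤ X := by linarith
  have hsq : √(N : ℝ) = Real.exp (1 / 2 * X) := by
    rw [Real.sqrt_eq_iff_mul_self_eq hN0.le (Real.exp_pos _).le, ← Real.exp_add, hNX]
    congr 1
    ring
  have hsN2 : √(N : ℝ) * √(N : ℝ) = N := Real.mul_self_sqrt hN0.le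
  have hsN : 0 < √(N : ℝ) := Real.sqrt_pos.2 hN0
  -- the level
  set Q : ℕ := ⌊Real.exp (l / 10)⌋₊ with hQ
  have hQ1 : (Q : ℝ) ≤ Real.exp (l / 10) := Nat.floor_le (Real.exp_pos _).le
  have hQ2 : Real.exp (l / 20) ≤ Q := by
    have h1 := (Nat.lt_floor_add_one (Real.exp (l / 10))).le
    rw [← hQ] at h1
    have h2 : Real.exp (l / 10) = Real.exp (l / 20) * Real.exp (l / 20) := by
      rw [← Real.exp_add]; congr 1; ring
    have h3 : (2 : ℝ) ≤ Real.exp (l / 20) := by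
      have := Real.add_one_le_exp (l / 20)
      linarith
    have h4 : 2 * Real.exp (l / 20) ≤ Real.exp (l / 20) * Real.exp (l / 20) := by gcongr
    linarith
  have hQ0 : (0 : ℝ) < Q := lt_of_lt_of_le (Real.exp_pos _) hQ2
  have hQn : 1 ≤ Q := by exact_mod_cast (Nat.cast_pos.1 hQ0)
  have hlQ : Real.log Q ≤ l / 10 := by rw [Real.log_le_iff_le_exp hQ0]; exact hQ1
  have hQX : 1 + Real.log Q ≤ X := by linarith
  have hQpow : ∀ k : ℕ, (Q : ℝ) ^ k ≤ Real.exp (k * l / 10) := fun k => by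
    calc (Q : ℝ) ^ k ≤ Real.exp (l / 10) ^ k := by gcongr
      _ = _ := by rw [← Real.exp_nat_mul]; congr 1; ring
  -- `R`
  set R : ℝ := √(N : ℝ) / X ^ b with hR
  have hXb : 0 < X ^ b := by positivity
  have hR0 : 0 < R := by positivity
  have hX2R : X ^ 2 ≤ R := by
    rw [hR, le_div_iff₀ hXb, hsq, ← pow_add]
    have e1 : X ^ (2 + b) ≤ Real.exp (1 / 4 * X) := by rw [add_comm 2 b]; exact a2
    exact e1.trans (Real.exp_le_exp.2 (by linarith))
  have hX2 : 400 ≤ X ^ 2 := by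
    calc (400 : ℝ) = 20 ^ 2 := by norm_num
      _ ≤ X ^ 2 := by gcongr; linarith
  have hR1 : 1 ≤ R := by linarith
  set x0 : ℕ := ⌈R⌉₊ with hx0
  have hx01 : R ≤ x0 := Nat.le_ceil _
  have hx02 : (x0 : ℝ) ≤ 2 * R := by
    have := (Nat.ceil_lt_add_one hR0.le).le
    linarith
  have h0 : 1 ≤ x0 := by
    have : (0 : ℝ) < x0 := by linarith
    exact_mod_cast (Nat.cast_pos.1 this)
  have hQ6 : Q ^ 6 ≤ x0 := by
    have h1 : ((Q ^ 6 : ℕ) : ℝ) ≤ x0 := by
      push_cast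
      refine (hQpow 6).trans (le_trans ?_ hx01)
      rw [hR, le_div_iff₀ hXb, hsq]
      have h2 : X ^ b ≤ Real.exp (1 / 4 * X) := by
        refine le_trans ?_ a2
        apply pow_le_pow_right₀ (by linarith) (by omega)
      calc Real.exp (((6 : ℕ) : ℝ) * l / 10) * X ^ b ≤ Real.exp (1 / 4 * X) * Real.exp (1 / 4 * X) := by
            apply mul_le_mul _ h2 (by positivity) (Real.exp_pos _).le
            apply Real.exp_le_exp.2
            push_cast
            linarith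
        _ = Real.exp (1 / 2 * X) := by rw [← Real.exp_add]; congr 1; ring
    exact_mod_cast h1
  -- `δ`
  set δ : ℝ := N / X ^ A1 with hδ
  have hδ0 : 0 ≤ δ := by positivity
  have hQ5 : (Q : ℝ) ^ 5 ≤ δ := by
    refine (hQpow 5).trans ?_
    rw [hδ, le_div_iff₀ (by positivity)]
    calc Real.exp (((5 : ℕ) : ℝ) * l / 10) * X ^ A1 ≤ Real.exp (1 / 2 * X) * Real.exp (1 / 2 * X) := by
          apply mul_le_mul _ a3 (by positivity) (Real.exp_pos _).le
          apply Real.exp_le_exp.2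
          push_cast
          linarith
      _ = N := by rw [← hsq, hsN2]
  have hsA : ∀ A : ℕ, 3 ≤ A → Odd A → |sing Q A| ≤ G * X := fun A h3 ho => (hGs A h3 ho Q hQn).trans (by gcongr)
  have hGX : G * X ≤ X ^ 2 := by
    rw [sq]
    gcongr
    linarith
  set W : ℝ := (C1 * X ^ K1 + C1 + G * X) * δ with hW
  have hW0 : 0 ≤ W := by positivity
  have hWle : W ≤ N / X ^ (2 * b) := by
    have h1 : C1 * X ^ K1 + C1 + G * X ≤ X ^ (K1 + 2) := by
      have h2 : (1 : ℝ) ≤ X ^ K1 := one_le_pow₀ (by linarith)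
      have h3 : G * X ≤ G * X * X ^ K1 := le_mul_of_one_le_right (by positivity) h2
      have h4 : C1 ≤ C1 * X ^ K1 := le_mul_of_one_le_right hC1.le h2
      have h5 : C1 * X ^ K1 ≤ C1 * X ^ K1 * X := le_mul_of_one_le_right (by positivity) (by linarith)
      calc C1 * X ^ K1 + C1 + G * X ≤ C1 * X ^ K1 * X + C1 * X ^ K1 * X + G * X * X ^ K1 := by linarith
        _ = (2 * C1 + G) * (X ^ K1 * X) := by ring
        _ ≤ X * (X ^ K1 * X) := by gcongr; linarith
        _ = X ^ (K1 + 2) := by ring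
    calc W ≤ X ^ (K1 + 2) * δ := by rw [hW]; gcongr
      _ = N / X ^ (2 * b) := by
          rw [hδ, hA1]
          have : X ^ (2 * b + K1 + 2) = X ^ (K1 + 2) * X ^ (2 * b) := by rw [← pow_add]; congr 1; ring
          rw [this]
          field_simp
  have hmaj : ∀ A : ℕ, 3 ≤ A → A ≤ N → Odd A → ∀ M : ℕ, M ≤ 4 * N →
      ‖∑ q ∈ Icc 1 Q, ∑ a ∈ rr q, Pool.Agent.P8H14.CF.G a q / q * e ((a : ℝ) * A / q) *
        ∑ m ∈ Icc 1 M, (th m : ℂ) * e (-((a : ℝ) * m / q)) - ((sing Q A * M : ℝ) : ℂ)‖ ≤ W := by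
    intro A h3 _ ho
    exact major hC1 hG hCS hQn hQX hδ0 (hsA A h3 ho)
      (fun M hM => hL1 l N hlL0 hReg hlX hX18 hlog Q hQ1 M hM) (a1 N rfl) hQ5
  have hN2 : N2 ≤ N := by
    have h1 : ((N2 : ℝ) + 1) ≤ N := by
      rw [hNX, ← Real.log_le_iff_le_exp (by positivity)]
      exact a4
    have : (N2 : ℝ) ≤ N := by linarith
    exact_mod_cast this
  have hXK : X ^ K2 ≤ 18 ^ K2 * l ^ (2 * K2) := by
    calc X ^ K2 ≤ (18 * l ^ 2) ^ K2 := by gcongr
      _ = _ := by rw [mul_pow, ← pow_mul]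
  have hSSN := hSS N Q hN2 (by
    refine hXK.trans (b3.trans (le_trans (Real.exp_le_exp.2 (by linarith)) hQ2))) (by
    have h1 : ((Q ^ 1000 : ℕ) : ℝ) ≤ N := by
      push_cast
      refine (hQpow 1000).trans ?_
      rw [hNX]
      apply Real.exp_le_exp.2
      push_cast
      linarith
    exact_mod_cast h1)
  obtain ⟨E0, hE0c, hE0⟩ := hSSN
  obtain ⟨E, hEc, hE⟩ := scale hDU hAB (κ := κ) hCT hTT (K := K2) (b := b) (W := W) hN hX (by linarith) hQn h0 hx01 hx02 hQ6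
    hX2R hW0 hWle (fun A h3 ho => (hsA A h3 ho).trans hGX) hmaj ⟨E0, hE0c, hE0⟩
  have hQ1000 : Q ^ 1000 ≤ N := by
    have h1 : ((Q ^ 1000 : ℕ) : ℝ) ≤ N := by
      push_cast
      refine (hQpow 1000).trans ?_
      rw [hNX]
      apply Real.exp_le_exp.2
      push_cast
      linarith
    exact_mod_cast h1
  have hκl : κ3 * c' * X / lX ≤ κ3 * l := by
    have h8 : c' * X / lX ≤ l := hlc'
    calc κ3 * c' * X / lX = κ3 * (c' * X / lX) := by ring
      _ ≤ κ3 * l := by gcongr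
  have hκ80 : κ3 * l ≤ 1 / 80 * l := by
    gcongr
    exact min_le_left _ _
  have hlQ2 : κ3 * c' * X / lX ≤ Real.log Q := by
    have h9 : l / 20 ≤ Real.log Q := by
      rw [Real.le_log_iff_exp_le hQ0]
      exact hQ2
    linarith
  refine ⟨Q, E ∪ E0, hQn, hQ1000, hlQ2, ?_, fun A hA ho hAE => ?_⟩
  · -- the size of the exceptional set
    have hun : ((E ∪ E0).card : ℝ) ≤ E.card + E0.card := by exact_mod_cast card_union_le _ _
    refine hun.trans ?_
    refine (add_le_add hEc hE0c).trans ?_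
    have h1 : Real.exp (l / 40) ≤ √(Q : ℝ) := by
      apply Real.le_sqrt_of_sq_le
      refine le_trans (le_of_eq ?_) hQ2
      rw [← Real.exp_nat_mul]
      congr 1
      push_cast
      ring
    have h2 : Real.exp (κ * l / 20) ≤ (Q : ℝ) ^ κ := by
      calc Real.exp (κ * l / 20) = Real.exp (l / 20) ^ κ := by rw [← Real.exp_mul]; congr 1; ring
        _ ≤ (Q : ℝ) ^ κ := Real.rpow_le_rpow (Real.exp_pos _).le hQ2 hκ.le
    have h3 : Real.exp (κ * l / 10) ≤ ((Q : ℝ) ^ κ) ^ 2 := by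
      calc Real.exp (κ * l / 10) = Real.exp (κ * l / 20) ^ 2 := by rw [← Real.exp_nat_mul]; congr 1; push_cast; ring
        _ ≤ _ := by gcongr
    have h4 : N * X ^ K2 / √(Q : ℝ) ≤ N * Real.exp (-(κ3 * l)) / 4 := by
      calc N * X ^ K2 / √(Q : ℝ) ≤ N * (Real.exp (1 / 80 * l) / 4) / Real.exp (l / 40) := by
            gcongr
            have : 4 * 18 ^ K2 * l ^ (2 * K2) = 4 * (18 ^ K2 * l ^ (2 * K2)) := by ring
            linarith
        _ = N * (Real.exp (1 / 80 * l) * Real.exp (-(l / 40))) / 4 := by rw [Real.exp_neg]; field_simp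
        _ ≤ N * Real.exp (-(κ3 * l)) / 4 := by
            rw [← Real.exp_add]
            gcongr
            linarith
    have h5 : 12 * CT ^ 2 * N * X ^ (5 * b + 2) / ((Q : ℝ) ^ κ) ^ 2 ≤ N * Real.exp (-(κ3 * l)) / 2 := by
      have h6 : X ^ (5 * b + 2) ≤ 18 ^ (5 * b + 2) * l ^ (2 * (5 * b + 2)) := by
        calc X ^ (5 * b + 2) ≤ (18 * l ^ 2) ^ (5 * b + 2) := by gcongr
          _ = _ := by rw [mul_pow, ← pow_mul]
      calc 12 * CT ^ 2 * N * X ^ (5 * b + 2) / ((Q : ℝ) ^ κ) ^ 2 ≤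
            12 * CT ^ 2 * N * (18 ^ (5 * b + 2) * l ^ (2 * (5 * b + 2))) / Real.exp (κ * l / 10) := by gcongr
        _ = N * (24 * CT ^ 2 * 18 ^ (5 * b + 2) * l ^ (2 * (5 * b + 2)) * Real.exp (-(κ * l / 10))) / 2 := by
            rw [Real.exp_neg]; field_simp; ring
        _ ≤ N * (Real.exp (κ / 20 * l) * Real.exp (-(κ * l / 10))) / 2 := by gcongr
        _ ≤ N * Real.exp (-(κ3 * l)) / 2 := by
            rw [← Real.exp_add]
            have : κ3 * l ≤ κ / 20 * l := by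
              gcongr
              exact min_le_right _ _
            gcongr
            linarith
    have h7 : N * Real.exp (-(κ3 * l)) ≤ N / sav (κ3 * c') N := by
      unfold sav
      rw [div_eq_mul_inv, ← Real.exp_neg]
      gcongr
    linarith
  · -- the formula
    rw [mem_union, not_or] at hAE
    obtain ⟨Cc, hIs, hClow, hCup, hsum⟩ := hE A hA ho hAE.1
    obtain ⟨Cc', hIs', hsC', -⟩ := hE0 A hA ho hAE.2
    have hCC : Cc' = Cc := tendsto_nhds_unique hIs' hIs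
    rw [hCC] at hsC'
    rw [mem_Icc] at hA
    have hC0 : 0 < Cc := lt_of_lt_of_le (by positivity) hClow
    have key : ∀ n : ℕ, n ^ 2 ≤ N → |(PA A n : ℝ) - Cc * LA A n| ≤ √(N : ℝ) / X ^ (2 * B + 4) := by
      intro n hn
      have h1 := hPL A n Cc (20 * X ^ 2 * R) hA.1 hC0.le (fun Y hY => hsum Y ((Nat.pow_le_pow_left hY 2).trans hn))
      refine h1.trans ?_
      have h2 : √(N : ℝ) / X ^ (2 * B + 4) = X ^ 2 * X ^ 2 * R := by
        rw [hR, hb]
        have : X ^ (2 * B + 8) = X ^ 2 * X ^ 2 * X ^ (2 * B + 4) := by rw [← pow_add, ← pow_add]; congr 1; ring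
        rw [this]
        field_simp
      rw [h2]
      have h3 : 0 < X ^ 2 * R := by positivity
      have h4 : 400 * (X ^ 2 * R) ≤ X ^ 2 * (X ^ 2 * R) := by gcongr
      have h5 : X ^ 2 * 1 ≤ X ^ 2 * R := by gcongr
      have h6 : (1 : ℝ) ≤ X ^ 2 * 1 := by linarith
      calc 2 * (20 * X ^ 2 * R) + 2 * Cc + 1 ≤ 2 * (20 * X ^ 2 * R) + 2 * X ^ 2 + 1 := by linarith
        _ = 40 * (X ^ 2 * R) + 2 * (X ^ 2 * 1) + 1 := by ring
        _ ≤ X ^ 2 * (X ^ 2 * R) := by linarith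
        _ = _ := by ring
    refine ⟨Cc, hC0, hIs, ?_, fun n hn hnB => (key n hn).trans ?_⟩
    · refine hsC'.trans ?_
      apply one_div_le_one_div_of_le hXp
      calc X = X ^ 1 := (pow_one X).symm
        _ ≤ X ^ b := pow_le_pow_right₀ (by linarith) (by omega)
    · -- the relative form
      have hF := F_le hn
      have hlogF : Real.log ((F n + A : ℕ) : ℝ) ≤ 2 * X := by
        have h1 : ((F n + A : ℕ) : ℝ) ≤ 3 * N := by
          have : F n + A ≤ 3 * N := by omega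
          exact_mod_cast this
        have h2 : (0 : ℝ) < ((F n + A : ℕ) : ℝ) := by
          have : 0 < F n + A := by omega
          exact_mod_cast this
        have h3 := Real.log_le_log h2 h1
        rw [Real.log_mul (by norm_num) hN0.ne', ← hX] at h3
        have : Real.log 3 ≤ 3 := by
          have := Real.log_le_sub_one_of_pos (show (0 : ℝ) < 3 by norm_num)
          linarith
        linarith
      have hLA := LA_lower (n := n) hA.1 (by positivity : 0 < 2 * X) hlogF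
      have hn2 : √(N : ℝ) ≤ n * X ^ B := by
        apply Real.sqrt_le_iff.2
        refine ⟨by positivity, ?_⟩
        calc (N : ℝ) ≤ n ^ 2 * X ^ (2 * B) := hnB
          _ = (n * X ^ B) ^ 2 := by ring
      have h4 : (n : ℝ) / X ^ 3 ≤ Cc * LA A n := by
        have h5 : 0 ≤ 2 * (n : ℝ) / (2 * X) := by positivity
        calc (n : ℝ) / X ^ 3 = 1 / X ^ 2 * (2 * n / (2 * X)) := by field_simp
          _ ≤ Cc * LA A n := by gcongr
      calc √(N : ℝ) / X ^ (2 * B + 4) ≤ n * X ^ B / X ^ (2 * B + 4) := by gcongr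
        _ ≤ n * X ^ B / X ^ (2 * B + 3) := by
            apply div_le_div_of_nonneg_left (by positivity) (by positivity)
            apply pow_le_pow_right₀ (by linarith) (by omega)
        _ = n / X ^ 3 / X ^ B := by
            have : X ^ (2 * B + 3) = X ^ 3 * X ^ B * X ^ B := by rw [← pow_add, ← pow_add]; congr 1; ring
            rw [this]
            field_simp
        _ ≤ _ := by gcongr

end Pool.Agent.P8H14.EX
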