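import Pool.Agent.P8H14.EX.M

set_option autoImplicit false

/-!
# Project EX: the choice of the polynomials
-/

open Finset Filter Topology

namespace Pool.Agent.P8H14.EX

open Pool.Agent.P8H14.CF
open Pool.Agent.P8H14.QP (sav)
open Pool.Agent.TH823.PS (Most most_mono)

lemma ev_log_rpow (a : ℝ) {b s : ℝ} (hb : 0 < b) (hs : 0 < s) : ∀ᶠ X : ℝ in atTop, a * Real.log X ≤ b * X ^ s := by
  have h1 := (isLittleO_log_rpow_atTop hs).def (show 0 < b / (|a| + 1) by positivity)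
  filter_upwards [h1, eventually_ge_atTop (1 : ℝ)] with X h h1
  have hl : 0 ≤ Real.log X := Real.log_nonneg h1
  have hX : 0 < X ^ s := Real.rpow_pos_of_pos (by linarith) _
  rw [Real.norm_of_nonneg hl, Real.norm_of_nonneg hX.le] at h
  have h2 : (|a| + 1) * Real.log X ≤ b * X ^ s := by
    calc (|a| + 1) * Real.log X ≤ (|a| + 1) * (b / (|a| + 1) * X ^ s) := by gcongr
      _ = b * X ^ s := by field_simp
  have h3 : a * Real.log X ≤ (|a| + 1) * Real.log X := by
    gcongr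
    linarith [le_abs_self a]
  linarith

lemma PZ_pos (z : ℕ) : 0 < PZ z := by
  unfold PZ
  apply Finset.prod_pos
  intro p hp
  exact (mem_filter.1 hp).2.pos

lemma PZ_le (z : ℕ) : PZ z ≤ 4 ^ z := by
  refine le_trans ?_ (primorial_le_four_pow z)
  unfold PZ primorial
  apply Finset.prod_le_prod_of_subset_of_one_le'
  · intro p hp
    unfold op at hp
    rw [mem_filter, mem_Icc] at hp
    rw [mem_filter, mem_range]
    exact ⟨by omega, hp.2⟩
  · intro p hp _
    exact (mem_filter.1 hp).2.pos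

lemma PZ_exp (z : ℕ) : (PZ z : ℝ) ≤ Real.exp (2 * z) := by
  have h1 : (PZ z : ℝ) ≤ 4 ^ z := by exact_mod_cast PZ_le z
  refine h1.trans ?_
  have h2 : (4 : ℝ) ≤ Real.exp 2 := by
    have e : Real.exp 2 = Real.exp 1 * Real.exp 1 := by rw [← Real.exp_add]; norm_num
    have h3 : (2 : ℝ) ≤ Real.exp 1 := by
      have := Real.add_one_le_exp (1 : ℝ)
      linarith
    rw [e]
    calc (4 : ℝ) = 2 * 2 := by norm_num
      _ ≤ _ := by gcongr
  calc (4 : ℝ) ^ z ≤ Real.exp 2 ^ z := by gcongr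
    _ = Real.exp (2 * z) := by rw [← Real.exp_nat_mul]; congr 1; ring

/-- the parameter -/
noncomputable def zz (η : ℝ) (N : ℕ) : ℕ := ⌊Real.log N ^ (1 - η)⌋₊

/-- the conclusion for a single polynomial -/
def Good1 (σ : ℤ) (B : ℕ) (η ε : ℝ) (N A : ℕ) : Prop := Odd A ∧ ∃ C : ℝ, 0 < C ∧ IsC A C ∧
  |2 * C - VS σ (zz η N)| ≤ ε / Real.log (zz η N) ∧
    ∀ n : ℕ, n ^ 2 ≤ N → (N : ℝ) ≤ n ^ 2 * Real.log N ^ (2 * B) →
      |(PA A n : ℝ) - C * LA A n| ≤ C * LA A n / Real.log N ^ B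

/-- **the choice of the polynomials** -/
theorem pick (hCNT : S_CNT) (hALG : S_ALG) (hLOW : S_LOW) (B : ℕ) {c η ε : ℝ} (hc : 0 < c) (hη : 0 < η) (hη1 : η < 1)
    (hε : 0 < ε) (σ : ℤ) (hσ : σ = 1 ∨ σ = -1) : ∃ N1 : ℕ, ∀ N : ℕ, N1 ≤ N → GoodX B c N →
      ∃ T : Finset ℕ, T ⊆ Ioc (N / 2) N ∧ N * Real.exp (-Real.log N ^ (1 - η / 2)) ≤ T.card ∧
        ∀ A ∈ T, Good1 σ B η ε N A := by
  classical
  obtain ⟨CA, hCA, hALG⟩ := hALG
  obtain ⟨CL, hCL, hLOW⟩ := hLOW
  -- a condition on `z`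
  have z1 : ∀ᶠ z : ℝ in atTop, 1 * Real.log z ≤ ε / (4 * (CA + 1)) * z ^ (1 / 4 : ℝ) :=
    ev_log_rpow 1 (by positivity) (by norm_num)
  obtain ⟨Z0, hZ0⟩ := eventually_atTop.1 z1
  -- conditions on `X`
  have x1 : ∀ᶠ X : ℝ in atTop, max Z0 3 + 1 ≤ X ^ (1 - η) :=
    (tendsto_rpow_atTop (by linarith : 0 < 1 - η)).eventually_ge_atTop _
  have x2 : ∀ᶠ X : ℝ in atTop, 100 ≤ X ^ η := (tendsto_rpow_atTop hη).eventually_ge_atTop _
  have x3 : ∀ᶠ X : ℝ in atTop, CA * Real.log X ≤ c * X ^ (1 / 2 : ℝ) := ev_log_rpow CA hc (by norm_num)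
  have x4 : ∀ᶠ X : ℝ in atTop, CL * Real.log X ≤ c / 2 * X ^ η := ev_log_rpow CL (by positivity) hη
  have x5 : ∀ᶠ X : ℝ in atTop, 32 * Real.log X ≤ c / 2 * X ^ (1 : ℝ) := ev_log_rpow 32 (by positivity) one_pos
  have x6 : ∀ᶠ X : ℝ in atTop, 2 * CL ≤ X ^ (η / 2) := (tendsto_rpow_atTop (by positivity)).eventually_ge_atTop _
  have x7 : ∀ᶠ X : ℝ in atTop, 32 ≤ X ^ (1 - η / 2) :=
    (tendsto_rpow_atTop (by linarith : 0 < 1 - η / 2)).eventually_ge_atTop _
  have x8 : ∀ᶠ X : ℝ in atTop, 2 * Real.log X ≤ ε * X ^ (1 : ℝ) := ev_log_rpow 2 hε one_pos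
  have hall := (x1.and (x2.and (x3.and x4))).and ((x5.and x6).and ((x7.and x8).and (eventually_ge_atTop (100 : ℝ))))
  obtain ⟨N1, hN1⟩ := eventually_atTop.1 ((Real.tendsto_log_atTop.comp tendsto_natCast_atTop_atTop).eventually hall)
  refine ⟨max N1 10, fun N hN hG => ?_⟩
  obtain ⟨⟨a1, a2, a3, a4⟩, ⟨a5, a6⟩, ⟨a7, a8⟩, a9⟩ := hN1 N ((le_max_left _ _).trans hN)
  have hN10 : 10 ≤ N := (le_max_right _ _).trans hN
  simp only [Function.comp] at a1 a2 a3 a4 a5 a6 a7 a8 a9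
  obtain ⟨Q, E, hQn, hQ1000, hlQ, hE, hF⟩ := hG
  set X : ℝ := Real.log (N : ℝ) with hX
  have hXp : 0 < X := by linarith
  have hN0 : (0 : ℝ) < N := by
    have : 0 < N := by omega
    exact_mod_cast this
  have hNX : (N : ℝ) = Real.exp X := by rw [hX, Real.exp_log hN0]
  have hQ0 : (0 : ℝ) < Q := by exact_mod_cast hQn
  rw [Real.rpow_one] at a5 a8
  set z : ℕ := zz η N with hz
  have hXη : X ^ (1 - η) * X ^ η = X := by
    rw [← Real.rpow_add hXp]
    simp
  have hX1η : 0 < X ^ (1 - η) := Real.rpow_pos_of_pos hXp _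
  have hz1 : (z : ℝ) ≤ X ^ (1 - η) := Nat.floor_le hX1η.le
  have hz2 : X ^ (1 - η) ≤ z + 1 := (Nat.lt_floor_add_one _).le
  have hz3 : max Z0 3 ≤ z := by linarith
  have hz4 : Z0 ≤ z := (le_max_left _ _).trans hz3
  have hz5 : (3 : ℝ) ≤ z := (le_max_right _ _).trans hz3
  have hz6 : 3 ≤ z := by exact_mod_cast hz5
  have hz0 : (0 : ℝ) < z := by linarith
  have hX100 : X ^ (1 - η) ≤ X / 100 := by
    rw [le_div_iff₀ (by norm_num)]
    calc X ^ (1 - η) * 100 ≤ X ^ (1 - η) * X ^ η := by gcongr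
      _ = X := hXη
  have hzX : (z : ℝ) ≤ X / 100 := hz1.trans hX100
  have hlz1 : 1 ≤ Real.log z := by
    rw [Real.le_log_iff_exp_le hz0]
    have := Real.exp_one_lt_d9
    linarith
  have hlzX : Real.log z ≤ Real.log X := Real.log_le_log hz0 (by linarith)
  have hlX1 : 1 ≤ Real.log X := hlz1.trans hlzX
  have hlX0 : 0 < Real.log X := by linarith
  -- `Q`
  have hQX : Real.log Q ≤ X / 1000 := by
    have h1 : ((Q ^ 1000 : ℕ) : ℝ) ≤ N := by exact_mod_cast hQ1000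
    have h2 : Real.log ((Q ^ 1000 : ℕ) : ℝ) ≤ X := Real.log_le_log (by positivity) h1
    rw [Nat.cast_pow, Real.log_pow] at h2
    push_cast at h2
    linarith
  have hQe : (Q : ℝ) ≤ Real.exp (X / 1000) := by
    rw [← Real.log_le_iff_le_exp hQ0]
    exact hQX
  -- the size condition
  have hbig : 8 * (PZ z : ℝ) * (Q : ℝ) ^ 4 * z ≤ N / 2 := by
    have k1 : (PZ z : ℝ) ≤ Real.exp (X / 50) := (PZ_exp z).trans (Real.exp_le_exp.2 (by linarith))
    have k2 : (Q : ℝ) ^ 4 ≤ Real.exp (X / 250) := by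
      calc (Q : ℝ) ^ 4 ≤ Real.exp (X / 1000) ^ 4 := by gcongr
        _ = Real.exp (X / 250) := by rw [← Real.exp_nat_mul]; congr 1; push_cast; ring
    have k3 : (z : ℝ) ≤ Real.exp (X / 100) := by
      have := Real.add_one_le_exp (X / 100)
      linarith
    have k4 : (16 : ℝ) ≤ Real.exp (X / 2) := by
      have := Real.add_one_le_exp (X / 2)
      linarith
    calc 8 * (PZ z : ℝ) * (Q : ℝ) ^ 4 * z ≤ 8 * Real.exp (X / 50) * Real.exp (X / 250) * Real.exp (X / 100) := by gcongr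
      _ = 16 * Real.exp (X / 50 + X / 250 + X / 100) / 2 := by rw [Real.exp_add, Real.exp_add]; ring
      _ ≤ Real.exp (X / 2) * Real.exp (X / 50 + X / 250 + X / 100) / 2 := by gcongr
      _ ≤ Real.exp X / 2 := by
          rw [← Real.exp_add]
          gcongr
          linarith
      _ = N / 2 := by rw [hNX]
  set u : ℕ := N / 2 with hu
  have huN : u ≤ N := Nat.div_le_self N 2
  have hu3 : 3 ≤ u := by omega
  have huR : (N : ℝ) / 2 ≤ (N : ℝ) - u := by
    have : (u : ℝ) ≤ N / 2 := by rw [hu]; exact_mod_cast Nat.cast_div_le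
    linarith
  have hbigN : 8 * PZ z * Q ^ 4 * z ≤ N - u := by
    have h1 : ((8 * PZ z * Q ^ 4 * z : ℕ) : ℝ) ≤ ((N - u : ℕ) : ℝ) := by
      rw [Nat.cast_sub huN]
      push_cast
      linarith
    exact_mod_cast h1
  have hsqz : CA * √(z : ℝ) ≤ Real.log Q := by
    refine le_trans ?_ hlQ
    rw [le_div_iff₀ hlX0]
    have k1 : √(z : ℝ) ≤ X ^ (1 / 2 : ℝ) := by
      rw [← Real.sqrt_eq_rpow]
      apply Real.sqrt_le_sqrt
      linarith
    have hX2 : X ^ (1 / 2 : ℝ) * X ^ (1 / 2 : ℝ) = X := by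
      rw [← Real.rpow_add hXp]
      norm_num
    have hX20 : 0 < X ^ (1 / 2 : ℝ) := Real.rpow_pos_of_pos hXp _
    calc CA * √(z : ℝ) * Real.log X ≤ CA * X ^ (1 / 2 : ℝ) * Real.log X := by gcongr
      _ = X ^ (1 / 2 : ℝ) * (CA * Real.log X) := by ring
      _ ≤ X ^ (1 / 2 : ℝ) * (c * X ^ (1 / 2 : ℝ)) := by gcongr
      _ = c * (X ^ (1 / 2 : ℝ) * X ^ (1 / 2 : ℝ)) := by ring
      _ = c * X := by rw [hX2]
  have halg := hALG σ z u N Q hσ hz6 hu3 huN hQn hsqz hbigN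
  -- the size of `AS`
  set S : Finset ℕ := AS σ z u N with hS
  have hPZ0 : (0 : ℝ) < PZ z := by exact_mod_cast PZ_pos z
  have hlow : (PZ z : ℝ) ≤ KZ z * Real.exp (CL * X ^ (1 - η)) := by
    refine (hLOW z hz6).trans ?_
    gcongr
    calc CL * z / Real.log z ≤ CL * z := div_le_self (by positivity) hlz1
      _ ≤ CL * X ^ (1 - η) := by gcongr
  have hKZ0 : (0 : ℝ) < KZ z := by
    by_contra hcon
    have h1 : (KZ z : ℝ) = 0 := le_antisymm (not_lt.1 hcon) (Nat.cast_nonneg _)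
    rw [h1, zero_mul] at hlow
    linarith
  have hScard : N / 8 * Real.exp (-(CL * X ^ (1 - η))) ≤ (S.card : ℝ) := by
    have h1 := (abs_le.1 (hCNT σ z u N hσ huN)).1
    rw [← hS] at h1
    have hQ4 : (1 : ℝ) ≤ (Q : ℝ) ^ 4 := one_le_pow₀ (by exact_mod_cast hQn)
    have h2 : 8 * (PZ z : ℝ) ≤ N / 2 := by
      refine le_trans ?_ hbig
      calc 8 * (PZ z : ℝ) = 8 * PZ z * 1 * 1 := by ring
        _ ≤ 8 * (PZ z : ℝ) * (Q : ℝ) ^ 4 * z := by gcongr; linarith
    have h3 : (KZ z : ℝ) * (N / (4 * PZ z)) ≤ KZ z * ((N : ℝ) - u) / (2 * PZ z) := by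
      calc (KZ z : ℝ) * (N / (4 * PZ z)) = KZ z * ((N : ℝ) / 2) / (2 * PZ z) := by
            field_simp
            norm_num
        _ ≤ KZ z * ((N : ℝ) - u) / (2 * PZ z) := by gcongr
    have h4 : 1 ≤ (N : ℝ) / (8 * PZ z) := by
      rw [one_le_div (by positivity)]
      linarith
    have h5 : (KZ z : ℝ) * (N / (4 * PZ z)) - KZ z ≥ KZ z * (N / (8 * PZ z)) := by
      have : (N : ℝ) / (4 * PZ z) = N / (8 * PZ z) + N / (8 * PZ z) := by
        field_simp
        ring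
      rw [this]
      have := mul_le_mul_of_nonneg_left h4 hKZ0.le
      linarith
    have h6 : N / 8 * Real.exp (-(CL * X ^ (1 - η))) ≤ KZ z * (N / (8 * PZ z)) := by
      rw [Real.exp_neg, ← div_eq_mul_inv, div_le_iff₀ (Real.exp_pos _)]
      calc (N : ℝ) / 8 = PZ z * (N / (8 * PZ z)) := by field_simp
        _ ≤ (KZ z * Real.exp (CL * X ^ (1 - η))) * (N / (8 * PZ z)) := by gcongr
        _ = _ := by ring
    linarith
  -- the exceptional set
  have hEcard : (E.card : ℝ) ≤ S.card / 4 := by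
    have h1 : (32 : ℝ) * Real.exp (CL * X ^ (1 - η)) ≤ sav c N := by
      unfold sav
      have h2 : (32 : ℝ) ≤ Real.exp 32 := by
        have := Real.add_one_le_exp (32 : ℝ)
        linarith
      calc (32 : ℝ) * Real.exp (CL * X ^ (1 - η)) ≤ Real.exp 32 * Real.exp (CL * X ^ (1 - η)) := by gcongr
        _ = Real.exp (32 + CL * X ^ (1 - η)) := by rw [Real.exp_add]
        _ ≤ _ := by
            apply Real.exp_le_exp.2
            rw [le_div_iff₀ hlX0]
            have h3 : CL * X ^ (1 - η) * Real.log X ≤ c / 2 * X := by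
              calc CL * X ^ (1 - η) * Real.log X = X ^ (1 - η) * (CL * Real.log X) := by ring
                _ ≤ X ^ (1 - η) * (c / 2 * X ^ η) := by gcongr
                _ = c / 2 * (X ^ (1 - η) * X ^ η) := by ring
                _ = c / 2 * X := by rw [hXη]
            calc (32 + CL * X ^ (1 - η)) * Real.log X = 32 * Real.log X + CL * X ^ (1 - η) * Real.log X := by ring
              _ ≤ c / 2 * X + c / 2 * X := add_le_add a5 h3
              _ = c * X := by ring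
    refine hE.trans ?_
    have h2 : (N : ℝ) / sav c N ≤ N / (32 * Real.exp (CL * X ^ (1 - η))) := by gcongr
    have h3 : (N : ℝ) / (32 * Real.exp (CL * X ^ (1 - η))) = (N / 8 * Real.exp (-(CL * X ^ (1 - η)))) / 4 := by
      rw [Real.exp_neg]
      field_simp
      norm_num
    linarith
  -- Chebyshev
  set δ : ℝ := ε / (2 * Real.log z) with hδ
  have hδ0 : 0 < δ := by positivity
  set B1 : Finset ℕ := S.filter (fun A => δ < |sing Q A - VS σ z|) with hB1
  have hB1card : (B1.card : ℝ) ≤ S.card / 4 := by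
    have h1 : (B1.card : ℝ) * δ ^ 2 ≤ CA * S.card / √(z : ℝ) := by
      refine le_trans ?_ halg
      rw [← nsmul_eq_mul, ← sum_const]
      refine le_trans (sum_le_sum (f := fun _ => δ ^ 2) (g := fun A => (sing Q A - VS σ z) ^ 2) fun A hA => ?_)
        (sum_le_sum_of_subset_of_nonneg (filter_subset _ _) fun _ _ _ => sq_nonneg _)
      rw [hB1, mem_filter] at hA
      rw [← sq_abs (sing Q A - VS σ z)]
      have := hA.2.le
      gcongr
    have h2 : 16 * CA * Real.log z ^ 2 ≤ ε ^ 2 * √(z : ℝ) := by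
      have h3 := hZ0 z hz4
      rw [one_mul] at h3
      have h4 : √(z : ℝ) = (z : ℝ) ^ (1 / 4 : ℝ) * (z : ℝ) ^ (1 / 4 : ℝ) := by
        rw [← Real.rpow_add hz0, Real.sqrt_eq_rpow]
        norm_num
      set w : ℝ := (z : ℝ) ^ (1 / 4 : ℝ) with hw
      have hw0 : 0 < w := Real.rpow_pos_of_pos hz0 _
      have h5 : 16 * CA * (ε / (4 * (CA + 1)) * w) ^ 2 = ε ^ 2 * (w * w) * (CA / (CA + 1) ^ 2) := by
        field_simp
        norm_num
      have h6 : CA / (CA + 1) ^ 2 ≤ 1 := by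
        rw [div_le_one (by positivity)]
        have e : (CA + 1) ^ 2 = CA ^ 2 + CA + CA + 1 := by ring
        have := sq_nonneg CA
        linarith
      calc 16 * CA * Real.log z ^ 2 ≤ 16 * CA * (ε / (4 * (CA + 1)) * w) ^ 2 := by gcongr
        _ = ε ^ 2 * (w * w) * (CA / (CA + 1) ^ 2) := h5
        _ ≤ ε ^ 2 * (w * w) * 1 := by gcongr
        _ = ε ^ 2 * √(z : ℝ) := by rw [h4]; ring
    have hsz : 0 < √(z : ℝ) := Real.sqrt_pos.2 hz0
    have key : ∀ s : ℝ, 0 ≤ s → CA * s / √(z : ℝ) ≤ s / 4 * δ ^ 2 := by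
      intro s hs
      rw [div_le_iff₀ hsz, hδ, div_pow]
      have e1 : s / 4 * (ε ^ 2 / (2 * Real.log z) ^ 2) * √(z : ℝ) =
          s * (ε ^ 2 * √(z : ℝ)) / (16 * Real.log z ^ 2) := by
        field_simp
        ring
      rw [e1, le_div_iff₀ (by positivity)]
      calc CA * s * (16 * Real.log z ^ 2) = s * (16 * CA * Real.log z ^ 2) := by ring
        _ ≤ s * (ε ^ 2 * √(z : ℝ)) := by gcongr
    have h3 : CA * S.card / √(z : ℝ) ≤ (S.card : ℝ) / 4 * δ ^ 2 := key _ (Nat.cast_nonneg _)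
    have h4 : (B1.card : ℝ) * δ ^ 2 ≤ (S.card : ℝ) / 4 * δ ^ 2 := h1.trans h3
    exact le_of_mul_le_mul_right h4 (by positivity)
  refine ⟨S \ (E ∪ B1), ?_, ?_, fun A hA => ?_⟩
  · intro A hA
    have h1 := (Finset.mem_sdiff.1 hA).1
    rw [hS] at h1
    unfold AS at h1
    exact (mem_filter.1 h1).1
  · have h1 : (S.card : ℝ) ≤ (S \ (E ∪ B1)).card + (E.card + B1.card) := by
      have h2 : S.card ≤ (S \ (E ∪ B1)).card + (E ∪ B1).card := by
        rw [← Finset.card_sdiff_add_card_inter S (E ∪ B1)]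
        have : (S ∩ (E ∪ B1)).card ≤ (E ∪ B1).card := card_le_card inter_subset_right
        omega
      have h3 : (E ∪ B1).card ≤ E.card + B1.card := card_union_le _ _
      exact_mod_cast (by omega : S.card ≤ (S \ (E ∪ B1)).card + (E.card + B1.card))
    have h2 : N * Real.exp (-X ^ (1 - η / 2)) ≤ (N / 8 * Real.exp (-(CL * X ^ (1 - η)))) / 2 := by
      have h3 : X ^ (1 - η / 2) = X ^ (1 - η) * X ^ (η / 2) := by
        rw [← Real.rpow_add hXp]
        congr 1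
        ring
      have h4 : CL * X ^ (1 - η) + 16 ≤ X ^ (1 - η / 2) := by
        have : 2 * CL * X ^ (1 - η) ≤ X ^ (1 - η / 2) := by
          calc 2 * CL * X ^ (1 - η) ≤ X ^ (η / 2) * X ^ (1 - η) := by gcongr
            _ = X ^ (1 - η / 2) := by rw [h3]; ring
        linarith
      have h5 : (16 : ℝ) ≤ Real.exp 16 := by
        have := Real.add_one_le_exp (16 : ℝ)
        linarith
      have h6 : 16 * Real.exp (-X ^ (1 - η / 2)) ≤ Real.exp (-(CL * X ^ (1 - η))) := by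
        calc 16 * Real.exp (-X ^ (1 - η / 2)) ≤ Real.exp 16 * Real.exp (-X ^ (1 - η / 2)) := by gcongr
          _ = Real.exp (16 + -X ^ (1 - η / 2)) := by rw [Real.exp_add]
          _ ≤ _ := Real.exp_le_exp.2 (by linarith)
      calc N * Real.exp (-X ^ (1 - η / 2)) = N / 16 * (16 * Real.exp (-X ^ (1 - η / 2))) := by ring
        _ ≤ N / 16 * Real.exp (-(CL * X ^ (1 - η))) := by gcongr
        _ = _ := by ring
    linarith
  · rw [Finset.mem_sdiff, mem_union, not_or] at hA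
    obtain ⟨hAS, hAE, hAB⟩ := hA
    have hAS' := hAS
    rw [hS] at hAS'
    unfold AS at hAS'
    rw [mem_filter, mem_Ioc] at hAS'
    obtain ⟨⟨hA1, hA2⟩, hodd, -⟩ := hAS'
    obtain ⟨C, hC0, hIs, hsC, hform⟩ := hF A (mem_Icc.2 ⟨by omega, hA2⟩) hodd hAE
    refine ⟨hodd, C, hC0, hIs, ?_, hform⟩
    have h1 : |sing Q A - VS σ z| ≤ δ := by
      by_contra hcon
      exact hAB (mem_filter.2 ⟨hAS, not_le.1 hcon⟩)
    have h2 : 1 / X ≤ δ := by
      rw [hδ, div_le_div_iff₀ hXp (by positivity)]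
      have : 2 * Real.log z ≤ 2 * Real.log X := by linarith
      linarith
    have h3 : ε / Real.log z = δ + δ := by
      rw [hδ]
      field_simp
      norm_num
    rw [h3]
    have e : 2 * C - VS σ z = -(sing Q A - 2 * C) + (sing Q A - VS σ z) := by ring
    rw [e]
    refine (abs_add_le _ _).trans ?_
    rw [abs_neg]
    exact add_le_add (hsC.trans h2) h1

end Pool.Agent.P8H14.EX
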