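import Pool.Agent.P8H14.EX.P

set_option autoImplicit false

/-!
# Project EX: assembly
-/

open Finset Filter Topology

namespace Pool.Agent.P8H14.EX

open Pool.Agent.P8H14.CF
open Pool.Agent.P8H14.QP (sav)
open Pool.Agent.TH823.PS (Most most_mono)

/-- `e ^ γ / 2` -/
noncomputable def K0 : ℝ := Real.exp Real.eulerMascheroniConstant / 2

/-- `2 C₂ e ^ (-γ)` -/
noncomputable def K1 : ℝ := 2 * C2 * Real.exp (-Real.eulerMascheroniConstant)

/-- rich in primes -/
def Rich (B : ℕ) (ε : ℝ) (N A : ℕ) : Prop := Odd A ∧ ∃ C : ℝ, 0 < C ∧ IsC A C ∧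
  |C - K0 * Real.log (Real.log N)| ≤ ε * Real.log (Real.log N) ∧
  ∀ n : ℕ, n ^ 2 ≤ N → (N : ℝ) ≤ n ^ 2 * Real.log N ^ (2 * B) →
    |(PA A n : ℝ) - C * LA A n| ≤ C * LA A n / Real.log N ^ B ∧
    |(PA A n : ℝ) - K0 * Real.log (Real.log N) * LA A n| ≤ ε * Real.log (Real.log N) * LA A n

/-- poor in primes -/
def Poor (B : ℕ) (ε : ℝ) (N A : ℕ) : Prop := Odd A ∧ ∃ C : ℝ, 0 < C ∧ IsC A C ∧
  |C - K1 / Real.log (Real.log N)| ≤ ε / Real.log (Real.log N) ∧
  ∀ n : ℕ, n ^ 2 ≤ N → (N : ℝ) ≤ n ^ 2 * Real.log N ^ (2 * B) →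
    |(PA A n : ℝ) - C * LA A n| ≤ C * LA A n / Real.log N ^ B ∧
    |(PA A n : ℝ) - K1 / Real.log (Real.log N) * LA A n| ≤ ε / Real.log (Real.log N) * LA A n

lemma LA_nonneg {A : ℕ} (hA : 3 ≤ A) (n : ℕ) : 0 ≤ LA A n := by
  have h1 := LA_lower (n := n) hA (show 0 < max 1 (Real.log ((F n + A : ℕ) : ℝ)) by
    exact lt_of_lt_of_le one_pos (le_max_left _ _)) (le_max_right _ _)
  refine le_trans ?_ h1
  positivity

open Classical in
theorem ext (hCNT : S_CNT) (hALG : S_ALG) (hMER : S_MER) (hLOW : S_LOW)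
    (hmain : ∀ (B : ℕ) (ε : ℝ), 0 < ε → ∃ c : ℝ, 0 < c ∧ Most ε (GoodX B c)) (B : ℕ) {ε : ℝ} (hε : 0 < ε) :
    ∃ δ : ℝ, 0 < δ ∧ Most ε (fun N =>
      N * Real.exp (-Real.log N ^ (1 - δ)) ≤ ((Ioc (N / 2) N).filter (Rich B ε N)).card ∧
      N * Real.exp (-Real.log N ^ (1 - δ)) ≤ ((Ioc (N / 2) N).filter (Poor B ε N)).card) := by
  obtain ⟨c, hc, hmost⟩ := hmain (B + 1) (ε / 2) (by positivity)
  have hK0 : 0 < K0 := by unfold K0; positivity
  have hK1 : 0 ≤ |K1| := abs_nonneg _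
  set η : ℝ := min (1 / 4) (min (ε / (8 * K0)) (ε / (16 * (|K1| + 1)))) with hη
  have hη0 : 0 < η := by
    rw [hη]
    apply lt_min (by norm_num)
    apply lt_min <;> positivity
  have hη1 : η ≤ 1 / 4 := min_le_left _ _
  have hη2 : K0 * η ≤ ε / 8 := by
    have h1 : η ≤ ε / (8 * K0) := (min_le_right _ _).trans (min_le_left _ _)
    calc K0 * η ≤ K0 * (ε / (8 * K0)) := by gcongr
      _ = ε / 8 := by field_simp
  have hη3 : η * (|K1| + 1) ≤ ε / 16 := by
    have h1 : η ≤ ε / (16 * (|K1| + 1)) := (min_le_right _ _).trans (min_le_right _ _)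
    calc η * (|K1| + 1) ≤ ε / (16 * (|K1| + 1)) * (|K1| + 1) := by gcongr
      _ = ε / 16 := by field_simp
  set ε1 : ℝ := min (ε / 8) 1 with hε1
  have hε10 : 0 < ε1 := lt_min (by positivity) one_pos
  have hε11 : ε1 ≤ ε / 8 := min_le_left _ _
  have hε12 : ε1 ≤ 1 := min_le_right _ _
  obtain ⟨Na, hNa⟩ := pick hCNT hALG hLOW (B + 1) hc hη0 (by linarith) hε10 (-1) (Or.inr rfl)
  obtain ⟨Nb, hNb⟩ := pick hCNT hALG hLOW (B + 1) hc hη0 (by linarith) hε10 1 (Or.inl rfl)
  obtain ⟨m1, m2⟩ := hMER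
  have n1 := (Metric.tendsto_atTop.1 m1) ε1 hε10
  have n2 := (Metric.tendsto_atTop.1 m2) ε1 hε10
  obtain ⟨Za, hZa⟩ := n1
  obtain ⟨Zb, hZb⟩ := n2
  have x1 : ∀ᶠ X : ℝ in atTop, ((max (max Za Zb) 3 : ℕ) : ℝ) + 1 ≤ X ^ (1 - η) :=
    (tendsto_rpow_atTop (by linarith : 0 < 1 - η)).eventually_ge_atTop _
  have x2 : ∀ᶠ X : ℝ in atTop, 1 / η ≤ Real.log X := Real.tendsto_log_atTop.eventually_ge_atTop _
  have x3 : ∀ᶠ X : ℝ in atTop, 2 * (K0 + |K1| + ε) / ε ≤ X := eventually_ge_atTop _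
  obtain ⟨N1, hN1⟩ := eventually_atTop.1 ((Real.tendsto_log_atTop.comp tendsto_natCast_atTop_atTop).eventually
    ((x1.and x2).and (x3.and (eventually_ge_atTop (100 : ℝ)))))
  refine ⟨η / 2, by positivity, most_mono (N₁ := max (max Na Nb) (max N1 10)) hε hmost fun N hN hG => ?_⟩
  obtain ⟨Ta, hTa1, hTa2, hTa3⟩ := hNa N ((le_max_left _ _).trans ((le_max_left _ _).trans hN)) hG
  obtain ⟨Tb, hTb1, hTb2, hTb3⟩ := hNb N ((le_max_right _ _).trans ((le_max_left _ _).trans hN)) hG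
  obtain ⟨⟨a1, a2⟩, a3, a4⟩ := hN1 N ((le_max_left _ _).trans ((le_max_right _ _).trans hN))
  have hN10 : 10 ≤ N := (le_max_right _ _).trans ((le_max_right _ _).trans hN)
  simp only [Function.comp] at a1 a2 a3 a4
  have hunf : ∀ (σ : ℤ) (A : ℕ), Good1 σ (B + 1) η ε1 N A → Odd A ∧ ∃ C : ℝ, 0 < C ∧ IsC A C ∧
      |2 * C - VS σ (zz η N)| ≤ ε1 / Real.log (zz η N) ∧
    ∀ n : ℕ, n ^ 2 ≤ N → (N : ℝ) ≤ n ^ 2 * Real.log N ^ (2 * (B + 1)) →
      |(PA A n : ℝ) - C * LA A n| ≤ C * LA A n / Real.log N ^ (B + 1) := fun _ _ h => h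
  set X : ℝ := Real.log (N : ℝ) with hX
  set lX : ℝ := Real.log X with hlX
  have hXp : 0 < X := by linarith
  set z : ℕ := zz η N with hz
  have hX1η : 0 < X ^ (1 - η) := Real.rpow_pos_of_pos hXp _
  have hz1 : (z : ℝ) ≤ X ^ (1 - η) := Nat.floor_le hX1η.le
  have hz2 : X ^ (1 - η) ≤ z + 1 := (Nat.lt_floor_add_one _).le
  have hz3 : max (max Za Zb) 3 ≤ z := by
    have : ((max (max Za Zb) 3 : ℕ) : ℝ) ≤ z := by linarith
    exact_mod_cast this
  have hza : Za ≤ z := (le_max_left _ _).trans ((le_max_left _ _).trans hz3)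
  have hzb : Zb ≤ z := (le_max_right _ _).trans ((le_max_left _ _).trans hz3)
  have hz6 : 3 ≤ z := (le_max_right _ _).trans hz3
  have hz5 : (3 : ℝ) ≤ z := by exact_mod_cast hz6
  have hz0 : (0 : ℝ) < z := by linarith
  set lz : ℝ := Real.log (z : ℝ) with hlz
  have hlz1 : 1 ≤ lz := by
    rw [hlz, Real.le_log_iff_exp_le hz0]
    have := Real.exp_one_lt_d9
    linarith
  have hlz0 : 0 < lz := by linarith
  have hup : lz ≤ (1 - η) * lX := by
    rw [hlz, hlX, ← Real.log_rpow hXp]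
    exact Real.log_le_log hz0 hz1
  have hηlX : 1 ≤ η * lX := by
    have := mul_le_mul_of_nonneg_left a2 hη0.le
    rwa [mul_one_div_cancel hη0.ne'] at this
  have hlX1 : 1 ≤ lX := by
    have : η * lX ≤ 1 * lX ∨ lX < 0 := by
      rcases lt_or_ge lX 0 with h | h
      · exact Or.inr h
      · exact Or.inl (by gcongr; linarith)
    rcases this with h | h
    · linarith
    · have : η * lX < 0 := mul_neg_of_pos_of_neg hη0 h
      linarith
  have hlX0 : 0 < lX := by linarith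
  have hlow : (1 - 2 * η) * lX ≤ lz := by
    have h1 : (1 - η) * lX ≤ Real.log 2 + lz := by
      rw [hlz, hlX, ← Real.log_rpow hXp, ← Real.log_mul (by norm_num) hz0.ne']
      apply Real.log_le_log hX1η
      linarith
    have h2 : Real.log 2 ≤ 1 := by
      have := Real.log_two_lt_d9
      linarith
    have h3 : (1 - 2 * η) * lX = (1 - η) * lX - η * lX := by ring
    linarith
  have hlzlX : lz ≤ lX := by
    have : (1 - η) * lX = lX - η * lX := by ring
    linarith
  have hdiff : lX - lz ≤ 2 * η * lX := by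
    have : (1 - 2 * η) * lX = lX - 2 * η * lX := by ring
    linarith
  have hsub : ∀ (P : ℕ → Prop) (T : Finset ℕ), T ⊆ Ioc (N / 2) N → N * Real.exp (-X ^ (1 - η / 2)) ≤ T.card →
      (∀ A ∈ T, P A) → N * Real.exp (-X ^ (1 - η / 2)) ≤ ((Ioc (N / 2) N).filter P).card := by
    intro P T h1 h2 h3
    refine h2.trans ?_
    have : T.card ≤ ((Ioc (N / 2) N).filter P).card := card_le_card fun A hA => mem_filter.2 ⟨h1 hA, h3 A hA⟩
    exact_mod_cast this
  have hA3 : ∀ A ∈ Ioc (N / 2) N, 3 ≤ A := fun A hA => by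
    rw [mem_Ioc] at hA
    omega
  have hXB : 0 < X ^ B := by positivity
  have hpow : ∀ n : ℕ, (N : ℝ) ≤ n ^ 2 * X ^ (2 * B) → (N : ℝ) ≤ n ^ 2 * X ^ (2 * (B + 1)) := by
    intro n h
    refine h.trans ?_
    gcongr
    · linarith
    · omega
  have hX1B : X ≤ X ^ (B + 1) := by
    calc X = X ^ 1 := (pow_one X).symm
      _ ≤ X ^ (B + 1) := pow_le_pow_right₀ (by linarith) (by omega)
  have hXBB : X ^ B ≤ X ^ (B + 1) := pow_le_pow_right₀ (by linarith) (by omega)
  have ha3 : 2 * (K0 + |K1| + ε) ≤ ε * X := by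
    rw [div_le_iff₀ hε] at a3
    linarith
  refine ⟨hsub _ Ta hTa1 hTa2 fun A hA => ?_, hsub _ Tb hTb1 hTb2 fun A hA => ?_⟩
  · obtain ⟨hodd, C, hC0, hIs, hC, hform⟩ := hunf _ _ (hTa3 A hA)
    have hVS := hZa z hza
    rw [Real.dist_eq] at hVS
    have k1 : |VS (-1) z - 2 * K0 * lz| ≤ ε1 * lz := by
      have e : VS (-1) z - 2 * K0 * lz = (VS (-1) z / lz - Real.exp Real.eulerMascheroniConstant) * lz := by
        unfold K0
        field_simp
      rw [e, abs_mul, abs_of_pos hlz0]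
      have := hVS.le
      gcongr
    have k2 : ε1 / lz ≤ ε1 := div_le_self hε10.le hlz1
    have k3 : |C - K0 * lX| ≤ ε / 2 * lX := by
      have e : 2 * (C - K0 * lX) = (2 * C - VS (-1) z) + (VS (-1) z - 2 * K0 * lz) - 2 * K0 * (lX - lz) := by ring
      have k4 : 2 * K0 * (lX - lz) ≤ 4 * (K0 * η) * lX := by
        calc 2 * K0 * (lX - lz) ≤ 2 * K0 * (2 * η * lX) := by gcongr
          _ = _ := by ring
      have k5 : 4 * (K0 * η) * lX ≤ 4 * (ε / 8) * lX := by gcongr
      have k6 : 0 ≤ 2 * K0 * (lX - lz) := by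
        have : 0 ≤ lX - lz := by linarith
        positivity
      have k7 : ε1 * lz ≤ ε / 8 * lX := by gcongr
      have k8 : ε1 ≤ ε / 8 * lX := by
        calc ε1 ≤ ε / 8 * 1 := by linarith
          _ ≤ _ := by gcongr
      have k9 := abs_le.1 hC
      have k10 := abs_le.1 k1
      have k11 : 0 ≤ ε * lX := by positivity
      rw [abs_le]
      constructor <;> linarith
    refine ⟨hodd, C, hC0, hIs, k3.trans (by
      gcongr
      linarith), fun n hn hnB => ?_⟩
    have hL := LA_nonneg (hA3 A (hTa1 hA)) n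
    have h1 := hform n hn (hpow n hnB)
    refine ⟨h1.trans (by gcongr), ?_⟩
    have h2 : C * LA A n / X ^ (B + 1) ≤ ε / 2 * lX * LA A n := by
      have h3 : C / X ≤ ε / 2 * lX := by
        rw [div_le_iff₀ hXp]
        have h4 := (abs_le.1 k3).2
        calc C ≤ K0 * lX + ε / 2 * lX := by linarith
          _ = (K0 + ε / 2) * lX := by ring
          _ ≤ (ε * X / 2) * lX := by
              gcongr
              linarith
          _ = _ := by ring
      calc C * LA A n / X ^ (B + 1) ≤ C * LA A n / X := by gcongr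
        _ = C / X * LA A n := by ring
        _ ≤ _ := by gcongr
    have h3 : |(C - K0 * lX) * LA A n| ≤ ε / 2 * lX * LA A n := by
      rw [abs_mul, abs_of_nonneg hL]
      gcongr
    have e : (PA A n : ℝ) - K0 * lX * LA A n = (PA A n - C * LA A n) + (C - K0 * lX) * LA A n := by ring
    rw [e]
    refine (abs_add_le _ _).trans ?_
    calc _ ≤ ε / 2 * lX * LA A n + ε / 2 * lX * LA A n := add_le_add (h1.trans h2) h3
      _ = _ := by ring
  · obtain ⟨hodd, C, hC0, hIs, hC, hform⟩ := hunf _ _ (hTb3 A hA)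
    have hVS := hZb z hzb
    rw [Real.dist_eq] at hVS
    have k1 : |VS 1 z * lz - 2 * K1| ≤ ε1 := by
      have e : 2 * K1 = 4 * C2 * Real.exp (-Real.eulerMascheroniConstant) := by unfold K1; ring
      rw [e]
      exact hVS.le
    have k2 : |(2 * C - VS 1 z) * lz| ≤ ε1 := by
      rw [abs_mul, abs_of_pos hlz0]
      calc |2 * C - VS 1 z| * lz ≤ ε1 / lz * lz := by gcongr
        _ = ε1 := by field_simp
    have k3 : |C * lz - K1| ≤ ε1 := by
      have e : 2 * (C * lz - K1) = (2 * C - VS 1 z) * lz + (VS 1 z * lz - 2 * K1) := by ring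
      have k4 := abs_le.1 k1
      have k5 := abs_le.1 k2
      rw [abs_le]
      constructor <;> linarith
    have k6 : C * lz ≤ |K1| + 1 := by
      have := (abs_le.1 k3).2
      have := le_abs_self K1
      linarith
    have k7 : C * lX ≤ 2 * (|K1| + 1) := by
      have h1 : lX ≤ 2 * lz := by
        have : 2 * η * lX ≤ 1 / 2 * lX := by gcongr; linarith
        linarith
      calc C * lX ≤ C * (2 * lz) := by gcongr
        _ = 2 * (C * lz) := by ring
        _ ≤ _ := by gcongr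
    have k8 : |C * lX - K1| ≤ ε / 2 := by
      have h1 : 0 ≤ C * (lX - lz) := by
        have : 0 ≤ lX - lz := by linarith
        positivity
      have h2 : C * (lX - lz) ≤ ε / 4 := by
        calc C * (lX - lz) ≤ C * (2 * η * lX) := by gcongr
          _ = 2 * η * (C * lX) := by ring
          _ ≤ 2 * η * (2 * (|K1| + 1)) := by gcongr
          _ = 4 * (η * (|K1| + 1)) := by ring
          _ ≤ 4 * (ε / 16) := by gcongr
          _ = ε / 4 := by ring
      have e : C * lX - K1 = (C * lz - K1) + C * (lX - lz) := by ring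
      have := abs_le.1 k3
      rw [e, abs_le]
      constructor <;> linarith
    have k9 : |C - K1 / lX| ≤ ε / 2 / lX := by
      have e : C - K1 / lX = (C * lX - K1) / lX := by field_simp
      rw [e, abs_div, abs_of_pos hlX0]
      gcongr
    refine ⟨hodd, C, hC0, hIs, k9.trans (by
      gcongr
      linarith), fun n hn hnB => ?_⟩
    have hL := LA_nonneg (hA3 A (hTb1 hA)) n
    have h1 := hform n hn (hpow n hnB)
    refine ⟨h1.trans (by gcongr), ?_⟩
    have h2 : C * LA A n / X ^ (B + 1) ≤ ε / 2 / lX * LA A n := by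
      have h3 : C / X ≤ ε / 2 / lX := by
        rw [div_le_div_iff₀ hXp hlX0]
        have h4 := (abs_le.1 k8).2
        have h5 := le_abs_self K1
        linarith
      calc C * LA A n / X ^ (B + 1) ≤ C * LA A n / X := by gcongr
        _ = C / X * LA A n := by ring
        _ ≤ _ := by gcongr
    have h3 : |(C - K1 / lX) * LA A n| ≤ ε / 2 / lX * LA A n := by
      rw [abs_mul, abs_of_nonneg hL]
      gcongr
    have e : (PA A n : ℝ) - K1 / lX * LA A n = (PA A n - C * LA A n) + (C - K1 / lX) * LA A n := by ring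
    rw [e]
    refine (abs_add_le _ _).trans ?_
    calc _ ≤ ε / 2 / lX * LA A n + ε / 2 / lX * LA A n := add_le_add (h1.trans h2) h3
      _ = _ := by ring

end Pool.Agent.P8H14.EX
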