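import Pool.Agent.P8H14.EX.Q
import Pool.Agent.P8H14.CF.F4
import Pool.Agent.P8H86.EX.Mer
import Pool.Agent.P8H44.EX.Ort
import Pool.Agent.P8H20.EX.Cnt
import Pool.Agent.P8H78.EX.Alg
import Pool.Agent.P8H78.EX.Low

set_option autoImplicit false

/-!
# Project EX: the packages put together
-/

open Finset Filter Topology

namespace Pool.Agent.P8H14.EX

open Pool.Agent.TH823.PS (Most most_mono)

theorem mainU (B : ℕ) (ε : ℝ) (hε : 0 < ε) : ∃ c : ℝ, 0 < c ∧ Most ε (GoodX B c) :=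
  mainX Pool.Agent.P8H7.CF.du Pool.Agent.P8H7.CF.ab Pool.Agent.P8H78.CF.tt
    (Pool.Agent.P8H89.CF.cs Pool.Agent.P8H89.CF.cq) Pool.Agent.P8H96.CF.eul
    (Pool.Agent.P8H96.CF.SS.ss Pool.Agent.P8H96.CF.eul (Pool.Agent.P8H67.CF.tail Pool.Agent.P8H67.CF.sm Pool.Agent.P8H67.CF.lg))
    Pool.Agent.P8H7.CF.pl B hε

open Classical in
theorem extU (B : ℕ) {ε : ℝ} (hε : 0 < ε) : ∃ δ : ℝ, 0 < δ ∧ Most ε (fun N =>
      N * Real.exp (-Real.log N ^ (1 - δ)) ≤ ((Ioc (N / 2) N).filter (Rich B ε N)).card ∧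
      N * Real.exp (-Real.log N ^ (1 - δ)) ≤ ((Ioc (N / 2) N).filter (Poor B ε N)).card) :=
  ext Pool.Agent.P8H20.EX.cnt
    (Pool.Agent.P8H78.EX.alg Pool.Agent.P8H20.EX.cnt (Pool.Agent.P8H44.EX.var Pool.Agent.P8H44.EX.ort)
      Pool.Agent.P8H86.EX.mer)
    Pool.Agent.P8H86.EX.mer Pool.Agent.P8H78.EX.low mainU B hε

end Pool.Agent.P8H14.EX
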